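import Mathlib
open SimpleGraph Finset

namespace Pool.Agent.Results.MP_04d992_co.ProductFormula

/-- `IsIndepDom G S`: the finite vertex set `S` is an independent dominating set of `G`:
no two vertices of `S` are adjacent and every vertex outside `S` has a neighbour in `S`. -/
def IsIndepDom {V : Type*} (G : SimpleGraph V) (S : Finset V) : Prop :=
  G.IsIndepSet (S : Set V) ∧ ∀ v, v ∉ S → ∃ u ∈ S, G.Adj u v

/-- The independent domination number `i(G)`: the least size of an independent dominating set. -/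
noncomputable def indepDomNum {V : Type*} (G : SimpleGraph V) : ℕ :=
  sInf {k | ∃ S : Finset V, IsIndepDom G S ∧ S.card = k}

/-- The claimed value of `M(n)`. -/
noncomputable def maxProduct (n : ℕ) : ℕ :=
  (n / 4 + 1) * ((n + 2) / 4 + 1) +
    if n = 5 ∨ n = 7 ∨ (Odd n ∧ 1 < n ∧ (IsSquare n ∨ IsSquare (n + 1))) then 1 else 0

lemma indepDomNum_le {V : Type*} {G : SimpleGraph V} {S : Finset V} (h : IsIndepDom G S) :
    indepDomNum G ≤ S.card := Nat.sInf_le ⟨S, h, rfl⟩

section basics

variable {V : Type*} [Fintype V] [DecidableEq V]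

/-- Every independent set extends to an independent dominating set. -/
lemma exists_indepDom_superset (G : SimpleGraph V) (T : Finset V)
    (hT : G.IsIndepSet (T : Set V)) : ∃ S, T ⊆ S ∧ IsIndepDom G S := by
  classical
  -- take an independent superset of maximal cardinality
  obtain ⟨S, hS, hmax⟩ := Finset.exists_max_image
    ((Finset.univ : Finset (Finset V)).filter fun S => T ⊆ S ∧ G.IsIndepSet (S : Set V))
    Finset.card ⟨T, by simp [hT]⟩
  simp only [Finset.mem_filter, Finset.mem_univ, true_and] at hS hmax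
  refine ⟨S, hS.1, hS.2, ?_⟩
  intro v hv
  by_contra hcon
  push Not at hcon
  have h1 : T ⊆ insert v S := hS.1.trans (Finset.subset_insert _ _)
  have h2 : G.IsIndepSet ((insert v S : Finset V) : Set V) := by
    rw [Finset.coe_insert]
    intro a ha b hb hab
    rcases Set.mem_insert_iff.1 ha with rfl | ha'
    · rcases Set.mem_insert_iff.1 hb with rfl | hb'
      · exact absurd rfl hab
      · intro h; exact hcon b (by simpa using hb') h.symm
    · rcases Set.mem_insert_iff.1 hb with rfl | hb'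
      · exact hcon a (by exact_mod_cast ha')
      · exact hS.2 ha' hb' hab
  have := hmax (insert v S) ⟨h1, h2⟩
  rw [Finset.card_insert_of_notMem hv] at this
  omega

lemma exists_indepDom (G : SimpleGraph V) : ∃ S, IsIndepDom G S := by
  obtain ⟨S, -, h⟩ := exists_indepDom_superset G ∅ (by simp)
  exact ⟨S, h⟩

lemma le_indepDomNum {G : SimpleGraph V} {k : ℕ} (h : ∀ S, IsIndepDom G S → k ≤ S.card) :
    k ≤ indepDomNum G := by
  apply le_csInf
  · obtain ⟨S, hS⟩ := exists_indepDom G
    exact ⟨_, S, hS, rfl⟩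
  · rintro _ ⟨S, hS, rfl⟩
    exact h S hS

lemma indepDomNum_le_card (G : SimpleGraph V) : indepDomNum G ≤ Fintype.card V := by
  obtain ⟨S, hS⟩ := exists_indepDom G
  exact (indepDomNum_le hS).trans (Finset.card_le_univ S)

lemma one_le_indepDomNum [Nonempty V] (G : SimpleGraph V) : 1 ≤ indepDomNum G := by
  apply le_indepDomNum
  intro S hS
  rw [Nat.one_le_iff_ne_zero, Ne, Finset.card_eq_zero]
  rintro rfl
  obtain ⟨v⟩ := ‹Nonempty V›
  obtain ⟨u, hu, -⟩ := hS.2 v (by simp)
  simp at hu

/-- Every vertex lies in a clique of size exactly `i(Gᶜ)`. -/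
lemma exists_clique [Nonempty V] (G : SimpleGraph V) (v : V) :
    ∃ K : Finset V, v ∈ K ∧ G.IsClique (K : Set V) ∧ K.card = indepDomNum Gᶜ := by
  obtain ⟨S, hvS, hS⟩ := exists_indepDom_superset Gᶜ {v} (by simp)
  obtain ⟨K, h1, h2, h3⟩ := Finset.exists_subsuperset_card_eq hvS
    (by simpa using one_le_indepDomNum Gᶜ) (indepDomNum_le hS)
  refine ⟨K, by simpa using h1, ?_, h3⟩
  have : G.IsClique (S : Set V) := by
    have := hS.1
    rwa [isIndepSet_compl] at this
  exact this.subset (by exact_mod_cast h2)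

/-- The key inequality: with `a = i(G)`, `b = i(Gᶜ)` there is `m ≤ n` with
`a (n - m) + (b - 1) m ≤ (m + 1) (n - m)`. -/
lemma key [Nonempty V] (G : SimpleGraph V) :
    ∃ m k : ℕ, m + k = Fintype.card V ∧
      indepDomNum G * k + (indepDomNum Gᶜ - 1) * m ≤ (m + 1) * k := by
  classical
  set a := indepDomNum G with ha
  set b := indepDomNum Gᶜ with hb
  have hb1 : 1 ≤ b := one_le_indepDomNum _
  let good : Finset (Finset V) → Prop := fun 𝓚 =>
    (∀ K ∈ 𝓚, G.IsClique (K : Set V) ∧ K.card = b) ∧ ∀ v, ∃ K ∈ 𝓚, v ∈ K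
  have hex : good ((Finset.univ : Finset (Finset V)).filter
      fun K => G.IsClique (K : Set V) ∧ K.card = b) := by
    refine ⟨by simp, fun v => ?_⟩
    obtain ⟨K, h1, h2, h3⟩ := exists_clique G v
    exact ⟨K, by simp [h2, h3, hb], h1⟩
  obtain ⟨𝓚, h𝓚, hmin⟩ := Finset.exists_min_image
    ((Finset.univ : Finset (Finset (Finset V))).filter good) Finset.card
    ⟨_, by simpa using hex⟩
  simp only [Finset.mem_filter, Finset.mem_univ, true_and] at h𝓚 hmin
  obtain ⟨hcl, hcov⟩ := h𝓚
  -- private vertices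
  have hpriv : ∀ K ∈ 𝓚, ∃ p, ∀ K' ∈ 𝓚, p ∈ K' ↔ K' = K := by
    intro K hK
    by_contra hcon
    push Not at hcon
    have : good (𝓚.erase K) := by
      refine ⟨fun K' hK' => hcl K' (Finset.mem_of_mem_erase hK'), fun v => ?_⟩
      obtain ⟨K', hK', h⟩ := hcov v
      by_cases hKK : K' = K
      · obtain ⟨K'', hK'', h''⟩ := hcon v
        rcases h'' with ⟨h1, h2⟩ | ⟨h1, h2⟩
        · exact ⟨K'', Finset.mem_erase.2 ⟨h2, hK''⟩, h1⟩
        · subst h2; subst hKK; exact absurd h h1
      · exact ⟨K', Finset.mem_erase.2 ⟨hKK, hK'⟩, h⟩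
    have h1 := hmin _ this
    rw [Finset.card_erase_of_mem hK] at h1
    have : 0 < 𝓚.card := Finset.card_pos.2 ⟨K, hK⟩
    omega
  choose! p hp using hpriv
  have hpinj : Set.InjOn p (𝓚 : Set (Finset V)) := by
    intro K hK K' hK' h
    have h1 : p K ∈ K := (hp K hK K hK).2 rfl
    rw [h] at h1
    exact (hp K' hK' K hK).1 h1
  set P := 𝓚.image p with hP
  have hPcard : P.card = 𝓚.card := Finset.card_image_of_injOn hpinj
  let d : V → ℕ := fun v => (𝓚.filter fun K => v ∈ K).card
  have hdsum : ∑ v, d v = b * 𝓚.card := by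
    have h1 : ∑ v, d v = ∑ K ∈ 𝓚, K.card := by
      simp only [d, Finset.card_filter]
      rw [Finset.sum_comm]
      refine Finset.sum_congr rfl fun K _ => ?_
      simp
    rw [h1, Finset.sum_congr rfl fun K hK => (hcl K hK).2]
    simp [mul_comm]
  have hdP : ∀ v ∈ P, d v = 1 := by
    intro v hv
    obtain ⟨K, hK, rfl⟩ := Finset.mem_image.1 hv
    have : (𝓚.filter fun K' => p K ∈ K') = {K} := by
      ext K'
      simp only [Finset.mem_filter, Finset.mem_singleton]
      constructor
      · rintro ⟨h1, h2⟩; exact (hp K hK K' h1).1 h2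
      · rintro rfl; exact ⟨hK, (hp _ hK _ hK).2 rfl⟩
    simp only [d, this, Finset.card_singleton]
  have hsumP : ∑ v ∈ P, d v = 𝓚.card := by
    rw [Finset.sum_congr rfl hdP]; simp [hPcard]
  have hsplit : ∑ v ∈ P, d v + ∑ v ∈ Pᶜ, d v = b * 𝓚.card := by
    rw [← hdsum]; exact Finset.sum_add_sum_compl P d
  have hdle : ∀ y, a + d y ≤ 𝓚.card + 1 := by
    intro y
    obtain ⟨S, hyS, hS⟩ := exists_indepDom_superset G {y} (by simp)
    have hy : y ∈ S := by simpa using hyS
    have h1 : a ≤ S.card := indepDomNum_le hS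
    have h2 : (S.erase y).card ≤ (𝓚.filter fun K => y ∉ K).card := by
      choose q hq using hcov
      refine Finset.card_le_card_of_injOn q ?_ ?_
      · intro u hu
        have hu' : u ≠ y ∧ u ∈ S := by simpa [and_comm] using hu
        have : y ∉ q u := by
          intro hyq
          have h3 := (hcl _ (hq u).1).1 (by exact_mod_cast (hq u).2) (by exact_mod_cast hyq) hu'.1
          exact hS.1 (by exact_mod_cast hu'.2) (by exact_mod_cast hy) hu'.1 h3
        simp [(hq u).1, this]
      · intro u hu u' hu' huu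
        by_contra hne
        have hu1 : u ≠ y ∧ u ∈ S := by simpa [and_comm] using hu
        have hu2 : u' ≠ y ∧ u' ∈ S := by simpa [and_comm] using hu'
        have h3 : u ∈ q u := (hq u).2
        have h4 : u' ∈ q u := by rw [huu]; exact (hq u').2
        have h5 := (hcl _ (hq u).1).1 (by exact_mod_cast h3) (by exact_mod_cast h4) hne
        exact hS.1 (by exact_mod_cast hu1.2) (by exact_mod_cast hu2.2) hne h5
    have h3 : d y + (𝓚.filter fun K => y ∉ K).card = 𝓚.card :=
      Finset.card_filter_add_card_filter_not (s := 𝓚) (fun K => y ∈ K)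
    have h4 : (S.erase y).card + 1 = S.card := Finset.card_erase_add_one hy
    omega
  refine ⟨𝓚.card, Pᶜ.card, ?_, ?_⟩
  · rw [← hPcard]; exact Finset.card_add_card_compl P
  · have h1 : ∑ y ∈ Pᶜ, (a + d y) ≤ ∑ y ∈ Pᶜ, (𝓚.card + 1) :=
      Finset.sum_le_sum fun y _ => hdle y
    rw [Finset.sum_add_distrib] at h1
    simp only [Finset.sum_const, smul_eq_mul] at h1
    have h2 : ∑ v ∈ Pᶜ, d v = (b - 1) * 𝓚.card := by
      rw [Nat.sub_mul, one_mul]
      omega
    rw [h2] at h1
    linarith [mul_comm a Pᶜ.card, mul_comm (𝓚.card + 1) Pᶜ.card]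

end basics

lemma base_le (n : ℕ) : (n / 4 + 1) * ((n + 2) / 4 + 1) ≤ maxProduct n := Nat.le_add_right _ _

lemma maxProduct_of (n : ℕ)
    (h : n = 5 ∨ n = 7 ∨ (Odd n ∧ 1 < n ∧ (IsSquare n ∨ IsSquare (n + 1)))) :
    maxProduct n = (n / 4 + 1) * ((n + 2) / 4 + 1) + 1 := by
  unfold maxProduct; rw [if_pos h]

lemma maxProduct_of_not (n : ℕ)
    (h : ¬ (n = 5 ∨ n = 7 ∨ (Odd n ∧ 1 < n ∧ (IsSquare n ∨ IsSquare (n + 1))))) :
    maxProduct n = (n / 4 + 1) * ((n + 2) / 4 + 1) := by
  unfold maxProduct; rw [if_neg h, add_zero]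

lemma maxProduct_seven : maxProduct 7 = 7 := maxProduct_of 7 (Or.inr (Or.inl rfl))

lemma le_maxProduct (n : ℕ) (hn : 1 ≤ n) : n ≤ maxProduct n := by
  obtain ⟨k, r, hr, rfl⟩ : ∃ k r, r < 4 ∧ n = 4 * k + r :=
    ⟨n / 4, n % 4, Nat.mod_lt _ (by norm_num), by omega⟩
  have e1 : (4 * k + r) / 4 = k := by omega
  have hb := base_le (4 * k + r)
  rw [e1] at hb
  interval_cases r
  · have e2 : (4 * k + 0 + 2) / 4 = k := by omega
    rw [e2] at hb
    refine le_trans ?_ hb
    rcases k with _ | k
    · omega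
    · nlinarith
  · have e2 : (4 * k + 1 + 2) / 4 = k := by omega
    rw [e2] at hb
    rcases k with _ | _ | k
    · simpa using hb
    · rw [maxProduct_of _ (Or.inl rfl)]
    · refine le_trans ?_ hb
      nlinarith
  · have e2 : (4 * k + 2 + 2) / 4 = k + 1 := by omega
    rw [e2] at hb
    refine le_trans ?_ hb
    rcases k with _ | k
    · omega
    · nlinarith
  · have e2 : (4 * k + 3 + 2) / 4 = k + 1 := by omega
    rw [e2] at hb
    rcases k with _ | _ | k
    · rw [maxProduct_of _ (Or.inr (Or.inr ⟨by decide, by norm_num, Or.inr ⟨2, rfl⟩⟩))]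
    · rw [maxProduct_of _ (Or.inr (Or.inl rfl))]
    · refine le_trans ?_ hb
      nlinarith

lemma prod_le (x y A B : ℕ) (h : x + y ≤ A + B) (h1 : A ≤ B) (h2 : B ≤ A + 1) :
    x * y ≤ A * B := by
  wlog hxy : x ≤ y generalizing x y
  · rw [mul_comm]; exact this y x (by omega) (by omega)
  have hx : x ≤ A := by omega
  obtain ⟨a, rfl⟩ := Nat.exists_eq_add_of_le hx
  obtain ⟨b, rfl⟩ := Nat.exists_eq_add_of_le (hx.trans h1)
  have hy : y ≤ x + a + b := by omega
  nlinarith [Nat.mul_le_mul_left x hy]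


section cases
variable {n s t q k : ℕ}

lemma core0 (hn : n = s + t + (q + 2)) (hP : 4 * ((s + 1) * (t + 1)) ≤ 4 * n + q ^ 2)
    (hcase : q + 2 < s + t) (hnk : n = 4 * k + 0) :
    (s + 1) * (t + 1) ≤ (k + 1) * (k + 1) := by
  obtain ⟨j, rfl⟩ : ∃ j, k = j + 2 := ⟨k - 2, by omega⟩
  have hq : q ≤ 2 * j + 1 := by omega
  have h1 : q ^ 2 ≤ (2 * j + 1) ^ 2 := Nat.pow_le_pow_left hq 2
  have h2 : 4 * ((s + 1) * (t + 1)) ≤ 4 * ((j + 2 + 1) * (j + 2 + 1)) := by
    refine hP.trans ?_
    rw [hnk]
    nlinarith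
  omega

lemma core1 (hn : n = s + t + (q + 2)) (hP : 4 * ((s + 1) * (t + 1)) ≤ 4 * n + q ^ 2)
    (h : 4 * (s * t) ≤ (q + 2) ^ 2)
    (hcase : q + 2 < s + t) (hnk : n = 4 * k + 1) :
    (s + 1) * (t + 1) ≤ (k + 1) * (k + 1) ∨
      ((s + 1) * (t + 1) ≤ (k + 1) * (k + 1) + 1 ∧ 1 < n ∧ IsSquare n) := by
  obtain ⟨j, rfl⟩ : ∃ j, k = j + 1 := ⟨k - 1, by omega⟩
  have hq : q ≤ 2 * j := by omega
  rcases Nat.lt_or_ge q (2 * j) with hq' | hq'
  · left
    obtain ⟨i, rfl⟩ : ∃ i, j = i + 1 := ⟨j - 1, by omega⟩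
    have h1 : q ^ 2 ≤ (2 * i + 1) ^ 2 := Nat.pow_le_pow_left (by omega) 2
    have h2 : 4 * ((s + 1) * (t + 1)) < 4 * ((i + 1 + 1 + 1) * (i + 1 + 1 + 1) + 1) := by
      refine hP.trans_lt ?_
      rw [hnk]
      nlinarith
    omega
  · have hqe : q = 2 * j := le_antisymm hq hq'
    have hst : s + t = 2 * j + 3 := by omega
    have h2 : (s + 1) * (t + 1) = s * t + (s + t) + 1 := by ring
    have h3 : (j + 1 + 1) * (j + 1 + 1) = (j + 1) ^ 2 + 2 * j + 3 := by ring
    have h4 : (q + 2) ^ 2 = 4 * (j + 1) ^ 2 := by rw [hqe]; ring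
    rw [h4] at h
    rcases Nat.lt_or_ge (s * t) ((j + 1) ^ 2) with hlt | hge
    · left
      rw [h2, h3, hst]
      omega
    · right
      have heq : s * t = (j + 1) ^ 2 := by omega
      refine ⟨by rw [h2, h3, hst, heq]; omega, by omega, ?_⟩
      have hsq : ((s : ℤ) - t) * ((s : ℤ) - t) = 4 * (j + 1) + 1 := by
        have e3 : (s : ℤ) + t = 2 * j + 3 := by exact_mod_cast hst
        have e4 : (s : ℤ) * t = (j + 1) ^ 2 := by exact_mod_cast heq
        have e5 : ((s : ℤ) - t) * ((s : ℤ) - t) = (s + t) ^ 2 - 4 * (s * t) := by ring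
        rw [e5, e3, e4]; ring
      refine ⟨((s : ℤ) - t).natAbs, ?_⟩
      have : ((((s : ℤ) - t).natAbs * ((s : ℤ) - t).natAbs : ℕ) : ℤ) = ((n : ℕ) : ℤ) := by
        rw [Int.natAbs_mul_self, hsq, hnk]; push_cast; ring
      exact_mod_cast this.symm

lemma core2 (hn : n = s + t + (q + 2)) (hP : 4 * ((s + 1) * (t + 1)) ≤ 4 * n + q ^ 2)
    (hcase : q + 2 < s + t) (hnk : n = 4 * k + 2) :
    (s + 1) * (t + 1) ≤ (k + 1) * (k + 1 + 1) := by
  obtain ⟨j, rfl⟩ : ∃ j, k = j + 1 := ⟨k - 1, by omega⟩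
  have h1 : q ^ 2 ≤ (2 * j) ^ 2 := Nat.pow_le_pow_left (by omega) 2
  have h2 : 4 * ((s + 1) * (t + 1)) ≤ 4 * ((j + 1 + 1) * (j + 1 + 1 + 1)) := by
    refine hP.trans ?_
    rw [hnk]
    nlinarith
  omega

lemma core3 (hn : n = s + t + (q + 2)) (hP : 4 * ((s + 1) * (t + 1)) ≤ 4 * n + q ^ 2)
    (h : 4 * (s * t) ≤ (q + 2) ^ 2)
    (hcase : q + 2 < s + t) (hnk : n = 4 * k + 3) :
    (s + 1) * (t + 1) ≤ (k + 1) * (k + 1 + 1) ∨
      ((s + 1) * (t + 1) ≤ (k + 1) * (k + 1 + 1) + 1 ∧ (n = 7 ∨ (1 < n ∧ IsSquare (n + 1)))) := by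
  obtain ⟨j, rfl⟩ : ∃ j, k = j + 1 := ⟨k - 1, by omega⟩
  have hq : q ≤ 2 * j + 1 := by omega
  rcases Nat.lt_or_ge q (2 * j + 1) with hq' | hq'
  · have h1 : q ^ 2 ≤ (2 * j) ^ 2 := Nat.pow_le_pow_left (by omega) 2
    rcases Nat.eq_zero_or_pos j with hj | hj
    · right
      subst hj
      have h2 : 4 * ((s + 1) * (t + 1)) ≤ 4 * 7 := by
        refine hP.trans ?_
        rw [hnk]
        nlinarith
      omega
    · left
      have h2 : 4 * ((s + 1) * (t + 1)) ≤ 4 * ((j + 1 + 1) * (j + 1 + 1 + 1)) := by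
        refine hP.trans ?_
        rw [hnk]
        nlinarith
      omega
  · have hqe : q = 2 * j + 1 := le_antisymm hq hq'
    have hst : s + t = 2 * j + 4 := by omega
    have h2 : (s + 1) * (t + 1) = s * t + (s + t) + 1 := by ring
    have h3 : (j + 1 + 1) * (j + 1 + 1 + 1) = (j + 1) * (j + 2) + 2 * j + 4 := by ring
    have h4 : (q + 2) ^ 2 = 4 * ((j + 1) * (j + 2)) + 1 := by rw [hqe]; ring
    rw [h4] at h
    rcases Nat.lt_or_ge (s * t) ((j + 1) * (j + 2)) with hlt | hge
    · left
      rw [h2, h3, hst]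
      omega
    · right
      have heq : s * t = (j + 1) * (j + 2) := by omega
      refine ⟨by rw [h2, h3, hst, heq]; omega, Or.inr ⟨by omega, ?_⟩⟩
      have hsq : ((s : ℤ) - t) * ((s : ℤ) - t) = 4 * (j + 1) + 4 := by
        have e3 : (s : ℤ) + t = 2 * j + 4 := by exact_mod_cast hst
        have e4 : (s : ℤ) * t = (j + 1) * (j + 2) := by exact_mod_cast heq
        have e5 : ((s : ℤ) - t) * ((s : ℤ) - t) = (s + t) ^ 2 - 4 * (s * t) := by ring
        rw [e5, e3, e4]; ring
      refine ⟨((s : ℤ) - t).natAbs, ?_⟩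
      have : ((((s : ℤ) - t).natAbs * ((s : ℤ) - t).natAbs : ℕ) : ℤ) = ((n + 1 : ℕ) : ℤ) := by
        rw [Int.natAbs_mul_self, hsq, hnk]; push_cast; ring
      exact_mod_cast this.symm

end cases

/-- arithmetic core -/
lemma arith_core (n s t r : ℕ) (hs : 1 ≤ s) (ht : 1 ≤ t) (hn : n = s + t + r)
    (h : 4 * (s * t) ≤ r ^ 2) : (s + 1) * (t + 1) ≤ maxProduct n := by
  by_cases hcase : s + t ≤ r
  · refine le_trans ?_ (base_le n)
    exact prod_le _ _ _ _ (by omega) (by omega) (by omega)
  push Not at hcase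
  have hst1 : 1 ≤ s * t := Nat.one_le_iff_ne_zero.2 (by positivity)
  have hr2 : 2 ≤ r := by
    by_contra hlt
    have h1 : r ≤ 1 := by omega
    have h2 : r ^ 2 ≤ 1 ^ 2 := Nat.pow_le_pow_left h1 2
    omega
  obtain ⟨k, r0, hr0, hnk⟩ : ∃ k r0, r0 < 4 ∧ n = 4 * k + r0 :=
    ⟨n / 4, n % 4, Nat.mod_lt _ (by norm_num), by omega⟩
  obtain ⟨q, rfl⟩ : ∃ q, r = q + 2 := ⟨r - 2, by omega⟩
  have hP : 4 * ((s + 1) * (t + 1)) ≤ 4 * n + q ^ 2 := by
    rw [hn]
    have h1 : (s + 1) * (t + 1) = s * t + (s + t) + 1 := by ring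
    have h2 : (q + 2) ^ 2 = q ^ 2 + 4 * q + 4 := by ring
    rw [h2] at h
    rw [h1]
    omega
  have hb := base_le n
  have e1 : n / 4 = k := by omega
  rw [e1] at hb
  interval_cases r0
  · have e2 : (n + 2) / 4 = k := by omega
    rw [e2] at hb
    exact (core0 hn hP hcase hnk).trans hb
  · have e2 : (n + 2) / 4 = k := by omega
    rw [e2] at hb
    rcases core1 hn hP h hcase hnk with h1 | ⟨h1, h2, h3⟩
    · exact h1.trans hb
    · rw [maxProduct_of n (Or.inr (Or.inr ⟨⟨2 * k, by omega⟩, h2, Or.inl h3⟩)), e1, e2]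
      exact h1
  · have e2 : (n + 2) / 4 = k + 1 := by omega
    rw [e2] at hb
    exact (core2 hn hP hcase hnk).trans hb
  · have e2 : (n + 2) / 4 = k + 1 := by omega
    rw [e2] at hb
    rcases core3 hn hP h hcase hnk with h1 | ⟨h1, h2⟩
    · exact h1.trans hb
    · have h3 : n = 5 ∨ n = 7 ∨ (Odd n ∧ 1 < n ∧ (IsSquare n ∨ IsSquare (n + 1))) := by
        rcases h2 with h2 | h2
        · exact Or.inr (Or.inl h2)
        · exact Or.inr (Or.inr ⟨⟨2 * k + 1, by omega⟩, h2.1, Or.inr h2.2⟩)
      rw [maxProduct_of n h3, e1, e2]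
      exact h1

section split

/-- The split graph on `Fin x ⊕ Fin y` (left side independent, right side a clique) given by a
bipartite relation. -/
def splitGraph {x y : ℕ} (R : Fin x → Fin y → Prop) : SimpleGraph (Fin x ⊕ Fin y) where
  Adj u v := match u, v with
    | .inl _, .inl _ => False
    | .inl i, .inr c => R i c
    | .inr c, .inl i => R i c
    | .inr c, .inr c' => c ≠ c'
  symm := ⟨by
    rintro (i | c) (i' | c') h
    · exact h
    · exact h
    · exact h
    · exact Ne.symm h⟩
  loopless := ⟨by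
    rintro (i | c) h
    · exact h
    · exact h rfl⟩

lemma IsIndepDom.map {V W : Type*} (e : V ≃ W) {G : SimpleGraph W} {S : Finset V}
    (h : IsIndepDom (G.comap e) S) : IsIndepDom G (S.map e.toEmbedding) := by
  constructor
  · intro a ha b hb hab hadj
    simp only [Finset.coe_map, Equiv.coe_toEmbedding, Set.mem_image, Finset.mem_coe] at ha hb
    obtain ⟨a, ha, rfl⟩ := ha
    obtain ⟨b, hb, rfl⟩ := hb
    exact h.1 (by exact_mod_cast ha) (by exact_mod_cast hb) (fun h' => hab (by rw [h'])) hadj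
  · intro v hv
    have : e.symm v ∉ S := by
      intro hmem
      apply hv
      simp only [Finset.mem_map, Equiv.coe_toEmbedding]
      exact ⟨_, hmem, by simp⟩
    obtain ⟨u, hu, hadj⟩ := h.2 _ this
    refine ⟨e u, by simpa using hu, ?_⟩
    simpa using hadj

lemma compl_comap {V W : Type*} (e : V ≃ W) (G : SimpleGraph W) :
    (G.comap e)ᶜ = Gᶜ.comap e := by
  ext u v
  simp [SimpleGraph.compl_adj, e.injective.ne_iff]

lemma compl_splitGraph {x y : ℕ} (R : Fin x → Fin y → Prop) :
    (splitGraph R)ᶜ = (splitGraph (fun c i => ¬ R i c)).comap (Equiv.sumComm _ _) := by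
  ext u v
  rcases u with (i | c) <;> rcases v with (i' | c') <;>
    simp [splitGraph, SimpleGraph.compl_adj]

lemma card_splitGraph {x y s : ℕ} (R : Fin x → Fin y → Prop) [∀ i c, Decidable (R i c)]
    (hs : ∀ c, s ≤ (Finset.univ.filter fun i => ¬ R i c).card) (hx : s + 1 ≤ x)
    {S : Finset (Fin x ⊕ Fin y)} (h : IsIndepDom (splitGraph R) S) : s + 1 ≤ S.card := by
  classical
  by_cases hc : ∃ c, Sum.inr c ∈ S
  · obtain ⟨c, hc⟩ := hc
    have hsub : insert (Sum.inr c) ((Finset.univ.filter fun i => ¬ R i c).map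
        Function.Embedding.inl) ⊆ S := by
      intro w hw
      rcases Finset.mem_insert.1 hw with rfl | hw
      · exact hc
      · obtain ⟨i, hi, rfl⟩ := Finset.mem_map.1 hw
        simp only [Finset.mem_filter, Finset.mem_univ, true_and] at hi
        by_contra hiS
        obtain ⟨u, hu, hadj⟩ := h.2 _ hiS
        rcases u with (i' | c')
        · exact hadj
        · have hcc : c ≠ c' := by
            rintro rfl; exact hi hadj
          exact h.1 (by exact_mod_cast hc) (by exact_mod_cast hu)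
            (fun h' => hcc (Sum.inr.inj h')) hcc
    calc s + 1 ≤ (Finset.univ.filter fun i => ¬ R i c).card + 1 := by
          have := hs c; omega
      _ = (insert (Sum.inr c) ((Finset.univ.filter fun i => ¬ R i c).map
        Function.Embedding.inl) : Finset (Fin x ⊕ Fin y)).card := by
          rw [Finset.card_insert_of_notMem (by simp), Finset.card_map]
      _ ≤ S.card := Finset.card_le_card hsub
  · push Not at hc
    have hsub : (Finset.univ : Finset (Fin x)).map Function.Embedding.inl ⊆ S := by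
      intro w hw
      obtain ⟨i, -, rfl⟩ := Finset.mem_map.1 hw
      by_contra hiS
      obtain ⟨u, hu, hadj⟩ := h.2 _ hiS
      rcases u with (i' | c')
      · exact hadj
      · exact hc c' hu
    have := Finset.card_le_card hsub
    rw [Finset.card_map, Finset.card_univ, Fintype.card_fin] at this
    omega

lemma exists_graph {x y s t : ℕ} (hx : s + 1 ≤ x) (hy : t + 1 ≤ y)
    (h : s * y + t * x ≤ x * y) :
    ∃ G : SimpleGraph (Fin (x + y)), s + 1 ≤ indepDomNum G ∧ t + 1 ≤ indepDomNum Gᶜ := by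
  classical
  let R : Fin x → Fin y → Prop := fun i c => ∃ j, j < t ∧ ((i : ℕ) * t + j) % y = c
  have hR1 : ∀ c, s ≤ (Finset.univ.filter fun i => ¬ R i c).card := by
    intro c
    have h1 : (Finset.univ.filter fun i => R i c).card ≤ (Finset.range (x - s)).card := by
      choose! J hJ using fun (i : Fin x) (hi : R i c) => hi
      refine Finset.card_le_card_of_injOn (fun i => ((i : ℕ) * t + J i) / y) ?_ ?_
      · intro i hi
        have hi' : R i c := by simpa using hi
        have h2 := (hJ i hi').1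
        simp only [Finset.coe_range, Set.mem_Iio]
        apply Nat.div_lt_of_lt_mul
        have h3 : (i : ℕ) * t + J i < x * t := by
          have h4 : (i : ℕ) + 1 ≤ x := i.2
          have h5 : ((i : ℕ) + 1) * t ≤ x * t := Nat.mul_le_mul_right t h4
          rw [add_mul, one_mul] at h5
          omega
        have h6 : y * (x - s) = x * y - s * y := by
          rw [Nat.mul_sub, mul_comm y x, mul_comm y s]
        rw [h6]
        have : x * t = t * x := mul_comm _ _
        omega
      · intro i hi i' hi' hii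
        have h1 : R i c := by simpa using hi
        have h2 : R i' c := by simpa using hi'
        have h3 := hJ i h1
        have h4 := hJ i' h2
        simp only at hii
        have h5 : (i : ℕ) * t + J i = (i' : ℕ) * t + J i' := by
          rw [← Nat.div_add_mod ((i : ℕ) * t + J i) y, ← Nat.div_add_mod ((i' : ℕ) * t + J i') y,
            hii, h3.2, h4.2]
        have h6 : (i : ℕ) = i' := by
          rcases lt_trichotomy (i : ℕ) i' with hlt | heq | hgt
          · exfalso
            have h7 : ((i : ℕ) + 1) * t ≤ (i' : ℕ) * t := Nat.mul_le_mul_right t hlt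
            rw [add_mul, one_mul] at h7
            omega
          · exact heq
          · exfalso
            have h7 : ((i' : ℕ) + 1) * t ≤ (i : ℕ) * t := Nat.mul_le_mul_right t hgt
            rw [add_mul, one_mul] at h7
            omega
        exact Fin.ext h6
    have h2 := Finset.card_filter_add_card_filter_not (s := (Finset.univ : Finset (Fin x)))
      (fun i => R i c)
    rw [Finset.card_univ, Fintype.card_fin] at h2
    rw [Finset.card_range] at h1
    omega
  have hR2 : ∀ i, t ≤ (Finset.univ.filter fun c => ¬ ¬ R i c).card := by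
    intro i
    have hy0 : 0 < y := by omega
    calc t = (Finset.range t).card := (Finset.card_range t).symm
      _ ≤ _ := by
        refine Finset.card_le_card_of_injOn
          (fun j => (⟨((i : ℕ) * t + j) % y, Nat.mod_lt _ hy0⟩ : Fin y)) ?_ ?_
        · intro j hj
          have hj' : j < t := by simpa using hj
          simp only [not_not, Finset.coe_filter, Finset.mem_univ, true_and, Set.mem_ofPred_eq]
          exact ⟨j, hj', rfl⟩
        · intro j hj j' hj' hjj
          have h1 : j < t := by simpa using hj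
          have h2 : j' < t := by simpa using hj'
          simp only [Fin.mk.injEq] at hjj
          have h3 : j % y = j' % y := Nat.ModEq.add_left_cancel' ((i : ℕ) * t) hjj
          rwa [Nat.mod_eq_of_lt (by omega), Nat.mod_eq_of_lt (by omega)] at h3
  refine ⟨(splitGraph R).comap finSumFinEquiv.symm, ?_, ?_⟩
  · apply le_indepDomNum
    intro S hS
    have := card_splitGraph R hR1 hx (IsIndepDom.map finSumFinEquiv.symm hS)
    rwa [Finset.card_map] at this
  · apply le_indepDomNum
    intro S hS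
    rw [compl_comap, compl_splitGraph] at hS
    have := card_splitGraph (fun c i => ¬ R i c) hR2 hy
      (IsIndepDom.map (Equiv.sumComm _ _) (IsIndepDom.map finSumFinEquiv.symm hS))
    rwa [Finset.card_map, Finset.card_map] at this

end split

/-- The upper bound `i(G) i(Gᶜ) ≤ M(n)`. -/
lemma upper (n : ℕ) (hn : 1 ≤ n) (G : SimpleGraph (Fin n)) :
    indepDomNum G * indepDomNum Gᶜ ≤ maxProduct n := by
  have : Nonempty (Fin n) := ⟨⟨0, hn⟩⟩
  obtain ⟨m, k, hmk, hkey⟩ := key G
  have ha1 := one_le_indepDomNum G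
  have hb1 := one_le_indepDomNum Gᶜ
  have han := indepDomNum_le_card G
  have hbn := indepDomNum_le_card Gᶜ
  rw [Fintype.card_fin] at han hbn hmk
  generalize indepDomNum G = a at *
  generalize indepDomNum Gᶜ = b at *
  obtain ⟨s, rfl⟩ : ∃ s, a = s + 1 := ⟨a - 1, by omega⟩
  obtain ⟨t, rfl⟩ : ∃ t, b = t + 1 := ⟨b - 1, by omega⟩
  rcases Nat.eq_zero_or_pos s with rfl | hs
  · rw [zero_add, one_mul]; exact hbn.trans (le_maxProduct n hn)
  rcases Nat.eq_zero_or_pos t with rfl | ht
  · rw [zero_add, mul_one]; exact han.trans (le_maxProduct n hn)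
  rw [Nat.add_sub_cancel] at hkey
  -- `s k + t m ≤ m k`
  have h1 : s * k + t * m ≤ m * k := by
    have e1 : (s + 1) * k = s * k + k := by ring
    have e2 : (m + 1) * k = m * k + k := by ring
    rw [e1, e2] at hkey
    omega
  have hk : 0 < k := by
    rcases Nat.eq_zero_or_pos k with rfl | hk
    · exfalso
      have : 0 < m := by omega
      have : 0 < t * m := Nat.mul_pos ht this
      omega
    · exact hk
  have hm : 0 < m := by
    rcases Nat.eq_zero_or_pos m with rfl | hm
    · exfalso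
      have : 0 < s * k := Nat.mul_pos hs hk
      omega
    · exact hm
  have hsm : s ≤ m := by
    by_contra hlt
    push Not at hlt
    have : m * k ≤ s * k := Nat.mul_le_mul_right k hlt.le
    have : 0 < t * m := Nat.mul_pos ht hm
    omega
  have htk : t ≤ k := by
    by_contra hlt
    push Not at hlt
    have h2 : k * m ≤ t * m := Nat.mul_le_mul_right m hlt.le
    have h3 : 0 < s * k := Nat.mul_pos hs hk
    rw [mul_comm k m] at h2
    omega
  obtain ⟨u, rfl⟩ := Nat.exists_eq_add_of_le hsm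
  obtain ⟨v, rfl⟩ := Nat.exists_eq_add_of_le htk
  have h2 : s * t ≤ u * v := by nlinarith
  refine arith_core n s t (u + v) hs ht (by omega) ?_
  calc 4 * (s * t) ≤ 4 * (u * v) := by omega
    _ ≤ (u + v) ^ 2 := by zify; nlinarith [sq_nonneg ((u : ℤ) - v)]

lemma exists_bot (n : ℕ) (hn : 1 ≤ n) :
    ∃ G : SimpleGraph (Fin n), n ≤ indepDomNum G * indepDomNum Gᶜ := by
  have : Nonempty (Fin n) := ⟨⟨0, hn⟩⟩
  refine ⟨⊥, ?_⟩
  have h1 : n ≤ indepDomNum (⊥ : SimpleGraph (Fin n)) := by
    apply le_indepDomNum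
    intro S hS
    have : S = Finset.univ := by
      ext v
      simp only [Finset.mem_univ, iff_true]
      by_contra hv
      obtain ⟨u, -, hadj⟩ := hS.2 v hv
      exact hadj
    rw [this, Finset.card_univ, Fintype.card_fin]
  calc n = n * 1 := (mul_one n).symm
    _ ≤ _ := Nat.mul_le_mul h1 (one_le_indepDomNum _)

lemma of_params {n p : ℕ} (x y s t : ℕ) (hn : n = x + y) (hx : s + 1 ≤ x) (hy : t + 1 ≤ y)
    (h : s * y + t * x ≤ x * y) (hp : p ≤ (s + 1) * (t + 1)) :
    ∃ G : SimpleGraph (Fin n), p ≤ indepDomNum G * indepDomNum Gᶜ := by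
  subst hn
  obtain ⟨G, h1, h2⟩ := exists_graph hx hy h
  exact ⟨G, hp.trans (Nat.mul_le_mul h1 h2)⟩

lemma sq_mod_four (w : ℕ) : w * w % 4 = 0 ∨ w * w % 4 = 1 := by
  rcases Nat.even_or_odd' w with ⟨c, rfl | rfl⟩
  · left
    have : 2 * c * (2 * c) = 4 * (c * c) := by ring
    omega
  · right
    have : (2 * c + 1) * (2 * c + 1) = 4 * (c * c + c) + 1 := by ring
    omega

/-- The bound is attained. -/
lemma lower (n : ℕ) (hn : 1 ≤ n) :
    ∃ G : SimpleGraph (Fin n), maxProduct n ≤ indepDomNum G * indepDomNum Gᶜ := by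
  by_cases hsmall : maxProduct n ≤ n
  · obtain ⟨G, hG⟩ := exists_bot n hn
    exact ⟨G, hsmall.trans hG⟩
  by_cases hbonus : n = 5 ∨ n = 7 ∨ (Odd n ∧ 1 < n ∧ (IsSquare n ∨ IsSquare (n + 1)))
  · have hval := maxProduct_of n hbonus
    rw [hval] at hsmall ⊢
    rcases hbonus with rfl | rfl | ⟨hodd, hn1, ⟨w, hw⟩ | ⟨w, hw⟩⟩
    · norm_num at hsmall
    · norm_num at hsmall
    · rcases Nat.even_or_odd' w with ⟨m, rfl | rfl⟩
      · exfalso
        obtain ⟨c, hc⟩ := hodd
        have : 2 * m * (2 * m) = 2 * (2 * m * m) := by ring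
        omega
      · have hm : 1 ≤ m := by
          by_contra hlt
          have : m = 0 := by omega
          subst this
          omega
        have e : (2 * m + 1) * (2 * m + 1) = 4 * (m * (m + 1)) + 1 := by ring
        have e1 : n / 4 = m * (m + 1) := by omega
        have e2 : (n + 2) / 4 = m * (m + 1) := by omega
        rw [e1, e2]
        refine of_params ((m + 1) * (2 * m + 1)) (m * (2 * m + 1)) ((m + 1) ^ 2) (m ^ 2)
          ?_ ?_ ?_ ?_ ?_
        · rw [hw]; ring
        · nlinarith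
        · nlinarith
        · apply le_of_eq; ring
        · apply le_of_eq; ring
    · rcases Nat.even_or_odd' w with ⟨m, rfl | rfl⟩
      · obtain ⟨j, rfl⟩ : ∃ j, m = j + 1 := by
          refine ⟨m - 1, ?_⟩
          rcases Nat.eq_zero_or_pos m with rfl | hm
          · omega
          · omega
        have e : 2 * (j + 1) * (2 * (j + 1)) = 4 * (j * (j + 2)) + 4 := by ring
        have e1 : n / 4 = j * (j + 2) := by omega
        have e2 : (n + 2) / 4 = j * (j + 2) + 1 := by omega
        have hj : 1 ≤ j := by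
          by_contra hlt
          have : j = 0 := by omega
          subst this
          have hn3 : n = 3 := by omega
          subst hn3
          norm_num at hsmall
        rw [e1, e2]
        -- `m = j + 1`, `x = m (2 m + 1)`, `y = (2 m + 1)(m - 1)`, `s = m (m + 1)`, `t = m (m - 1)`
        refine of_params ((j + 1) * (2 * j + 3)) ((2 * j + 3) * j) ((j + 1) * (j + 2))
          ((j + 1) * j) ?_ ?_ ?_ ?_ ?_
        · have : (j + 1) * (2 * j + 3) + (2 * j + 3) * j + 1 = 2 * (j + 1) * (2 * (j + 1)) := by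
            ring
          omega
        · nlinarith
        · nlinarith
        · apply le_of_eq; ring
        · apply le_of_eq; ring
      · exfalso
        obtain ⟨c, hc⟩ := hodd
        have : (2 * m + 1) * (2 * m + 1) = 2 * (2 * m * m + 2 * m) + 1 := by ring
        omega
  · have hval := maxProduct_of_not n hbonus
    rw [hval] at hsmall ⊢
    obtain ⟨k, r0, hr0, hnk⟩ : ∃ k r0, r0 < 4 ∧ n = 4 * k + r0 :=
      ⟨n / 4, n % 4, Nat.mod_lt _ (by norm_num), by omega⟩
    have e1 : n / 4 = k := by omega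
    rw [e1] at hsmall ⊢
    have hk : 1 ≤ k := by
      by_contra hlt
      have : k = 0 := by omega
      subst this
      apply hsmall
      have h1 : (n + 2) / 4 ≤ 1 := by omega
      interval_cases r0
      · omega
      · have h2 : (n + 2) / 4 = 0 := by omega
        rw [h2]; omega
      · have h2 : (n + 2) / 4 = 1 := by omega
        rw [h2]; omega
      · have h2 : (n + 2) / 4 = 1 := by omega
        rw [h2]; omega
    interval_cases r0
    · have e2 : (n + 2) / 4 = k := by omega
      rw [e2]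
      refine of_params (2 * k) (2 * k) k k (by omega) (by omega) (by omega) ?_ le_rfl
      apply le_of_eq; ring
    · have e2 : (n + 2) / 4 = k := by omega
      rw [e2]
      refine of_params (2 * k + 1) (2 * k) k k (by omega) (by omega) (by omega) ?_ le_rfl
      nlinarith
    · have e2 : (n + 2) / 4 = k + 1 := by omega
      rw [e2]
      refine of_params (2 * k) (2 * k + 2) k (k + 1) (by omega) (by omega) (by omega) ?_ le_rfl
      apply le_of_eq; ring
    · have e2 : (n + 2) / 4 = k + 1 := by omega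
      rw [e2]
      refine of_params (2 * k + 1) (2 * k + 2) k (k + 1) (by omega) (by omega) (by omega) ?_ le_rfl
      nlinarith

/-- **Main theorem.** For every `n ≥ 1` the maximum of `i(G) · i(Gᶜ)` over all graphs `G` on `n`
vertices equals `(⌊n/4⌋ + 1)(⌊(n+2)/4⌋ + 1) + ε(n)`, with `ε(n) = 1` if `n = 5`, `n = 7`, or
`n > 1` is odd and one of `n`, `n + 1` is a perfect square, and `ε(n) = 0` otherwise. -/
theorem result (n : ℕ) (hn : 1 ≤ n) :
    IsGreatest {p : ℕ | ∃ G : SimpleGraph (Fin n), p = indepDomNum G * indepDomNum Gᶜ}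
      (maxProduct n) := by
  constructor
  · obtain ⟨G, hG⟩ := lower n hn
    exact ⟨G, le_antisymm hG (upper n hn G)⟩
  · rintro p ⟨G, rfl⟩
    exact upper n hn G

end Pool.Agent.Results.MP_04d992_co.ProductFormula
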